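import Pool.Agent.MP_3ce0a0_al.H79.SpecS
import Pool.Agent.MP_3ce0a0_al.H97.Conn

/-
The subgraph of cells supported in a large set is connected (finer count).
-/

namespace Pool.Agent.MP_3ce0a0_al.H59

open Equiv Pool.Agent.MP_3ce0a0_al.H79 Pool.Agent.MP_3ce0a0_al.H97

theorem sconn2 : SConn2 := by
  intro ι V E _ _ o t PV PE k sV sE hn hG hV hE hL
  have so := supp_sub o PV PE k sV sE hn hG.1 hG.2.2.1 hV hE
  have st := supp_sub t PV PE k sV sE hn hG.2.1 hG.2.2.2 hV hE
  refine ⟨fun e => ⟨so e, st e⟩, fun S hS u v hu hv => ?_⟩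
  have fix : ∀ (w : V) (σ : Perm ι), Perm.sign σ = 1 → (∀ x ∈ sV w, σ x = x) → PV.π σ w = w :=
    fun w σ s1 s2 => (hV.2.1 w).1 σ s1 fun a ha => s2 a (by simpa using ha)
  have key : ∀ w, Lnk o t (fun _ => True) w v → ∀ σ : Perm ι, Perm.sign σ = 1 →
      (∀ x ∈ sV v, σ x = x) → (∀ x ∈ sV w, σ x ∈ S) →
      Lnk o t (fun e => sE e ⊆ S) (PV.π σ w) v := by
    intro w hw
    induction hw using Relation.ReflTransGen.head_induction_on with
    | refl =>
      intro σ s1 s2 _
      rw [fix v σ s1 s2]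
      exact Relation.ReflTransGen.refl
    | @head w w' hww _ ih =>
      intro σ s1 s2 s3
      obtain ⟨e, -, he⟩ := hww
      have hF : (sV w).map σ.toEmbedding ∪ sV v ⊆ S := by
        refine Finset.union_subset (fun x hx => ?_) hv
        obtain ⟨y, hy, rfl⟩ := Finset.mem_map.1 hx
        exact s3 y hy
      have hw0 : sV w ⊆ sE e := by
        rcases he with ⟨rfl, -⟩ | ⟨-, rfl⟩
        · exact so e
        · exact st e
      have c1 : (((sV w).map σ.toEmbedding ∪ sV v) ∪ (sE e).map σ.toEmbedding) ⊆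
          (sE e).map σ.toEmbedding ∪ sV v :=
        Finset.union_subset (Finset.union_subset_union (Finset.map_subset_map.2 hw0)
          (Finset.Subset.refl _)) Finset.subset_union_left
      have c2 := Finset.card_le_card c1
      have c5 := Finset.card_union_le ((sE e).map σ.toEmbedding) (sV v)
      rw [Finset.card_map] at c5
      have c6 := Finset.card_sdiff_add_card ((sE e).map σ.toEmbedding)
        ((sV w).map σ.toEmbedding ∪ sV v)
      rw [Finset.union_comm ((sE e).map σ.toEmbedding)] at c6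
      have c3 := hV.1 v
      have c4 := hE.1 e
      obtain ⟨τ, t1, t2, t3⟩ := exists_move _ S hF
        ((sE e).map σ.toEmbedding \ ((sV w).map σ.toEmbedding ∪ sV v)) (by omega)
      have t4 : ∀ x ∈ sE e, (τ * σ) x ∈ S := fun x hx => by
        by_cases hx' : σ x ∈ (sV w).map σ.toEmbedding ∪ sV v
        · rw [Perm.mul_apply, t2 _ hx']
          exact hF hx'
        · exact t3 _ (Finset.mem_sdiff.2 ⟨Finset.mem_map_of_mem σ.toEmbedding hx, hx'⟩)
      have hw' : sV w' ⊆ sE e := by
        rcases he with ⟨-, rfl⟩ | ⟨rfl, -⟩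
        · exact st e
        · exact so e
      have l := ih (τ * σ) (by rw [Perm.sign_mul, t1, s1, one_mul])
        (fun x hx => by rw [Perm.mul_apply, s2 x hx, t2 x (Finset.mem_union_right _ hx)])
        (fun x hx => t4 x (hw' hx))
      have e1 : PV.π (τ * σ) w = PV.π σ w := by
        rw [map_mul, Perm.mul_apply]
        refine fix _ τ t1 fun x hx => t2 x (Finset.mem_union_left _ ?_)
        rwa [hV.2.2.2.1] at hx
      refine Relation.ReflTransGen.head ⟨PE.π (τ * σ) e, ?_, ?_⟩ l
      · intro x hx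
        rw [hE.2.2.2.1] at hx
        obtain ⟨y, hy, rfl⟩ := Finset.mem_map.1 hx
        exact t4 y hy
      · rw [hG.1, hG.2.1, ← e1]
        rcases he with ⟨rfl, rfl⟩ | ⟨rfl, rfl⟩
        · exact Or.inl ⟨rfl, rfl⟩
        · exact Or.inr ⟨rfl, rfl⟩
  have := key u (hL u v) 1 (by simp) (fun _ _ => rfl) (fun x hx => hu hx)
  rwa [map_one, Perm.one_apply] at this

end Pool.Agent.MP_3ce0a0_al.H59
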