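import Pool.Agent.MP_3ce0a0_al.H79.XS
import Pool.Agent.MP_3ce0a0_al.H79.XB
import Pool.Agent.MP_3ce0a0_al.H81.Gr

/-
Linear groups in which all squares are unipotent; the graded module of a unipotent subgroup.
-/

namespace Pool.Agent.MP_3ce0a0_al.H59

open Module Pool.Agent.MP_3ce0a0_al.H79.X

section
variable {V W : Type} [AddCommGroup V] [Module ℂ V] [AddCommGroup W] [Module ℂ W]

lemma semi (j : V →ₗ[ℂ] W) {μ : End ℂ V} {f : End ℂ W} (e : ∀ v, j (μ v) = f (j v)) (k : ℕ)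
    (v : V) : j (((μ - 1) ^ k) v) = ((f - 1) ^ k) (j v) := by
  induction k with
  | zero => rfl
  | succ k ih =>
    rw [pow_succ', pow_succ', End.mul_apply, End.mul_apply, ← ih]
    simp [e]

lemma uni_iff {f : End ℂ V} : Uni f ↔ ∃ k : ℕ, ∀ v, ((f - 1) ^ k) v = 0 :=
  ⟨fun ⟨k, h⟩ => ⟨k, fun v => by rw [h]; rfl⟩, fun ⟨k, h⟩ => ⟨k, LinearMap.ext h⟩⟩

lemma uni_sub (j : V →ₗ[ℂ] W) (hj : Function.Injective j) {μ : End ℂ V} {f : End ℂ W}
    (e : ∀ v, j (μ v) = f (j v)) {Q : Submodule ℂ W} (hQ : ∀ v, j v ∈ Q) (h : UniOn f Q) :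
    Uni μ := by
  obtain ⟨k, h⟩ := h
  exact uni_iff.2 ⟨k, fun v => hj (by rw [semi j e, h _ (hQ v), map_zero])⟩

lemma uni_quo (d : V →ₗ[ℂ] W) (hd : Function.Surjective d) {μ : End ℂ V} {f : End ℂ W}
    (e : ∀ v, d (μ v) = f (d v)) (h : Uni μ) : Uni f := by
  obtain ⟨k, h⟩ := uni_iff.1 h
  refine uni_iff.2 ⟨k, fun w => ?_⟩
  obtain ⟨v, rfl⟩ := hd w
  rw [← semi d e, h, map_zero]

lemma burnside {A : Type} [Ring A] [Algebra ℂ A] [Module A V] [IsScalarTower ℂ A V]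
    [FiniteDimensional ℂ V] [IsSimpleModule A V] (f : End ℂ V) :
    ∃ r : A, ∀ v, f v = r • v := by
  have hb := IsSimpleModule.algebraMap_end_bijective_of_isAlgClosed (A := A) (V := V) ℂ
  obtain ⟨s, hs⟩ := Module.Finite.fg_top (R := ℂ) (M := V)
  let F : End (End A V) V :=
    { toFun := f
      map_add' := f.map_add
      map_smul' := fun e v => by
        obtain ⟨c, rfl⟩ := hb.2 e
        simp }
  obtain ⟨r, hr⟩ := jacobson_density F s
  refine ⟨r, fun v => ?_⟩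
  have h : f = Algebra.lsmul ℂ ℂ V r := LinearMap.ext_on hs fun v hv => hr v hv
  rw [h]
  rfl

lemma sum_signs (s : Multiset ℂ) (h : ∀ x ∈ s, x = 1 ∨ x = -1) :
    ∃ a b : ℕ, a + b = s.card ∧ s.sum = a - b := by
  induction s using Multiset.induction_on with
  | empty => exact ⟨0, 0, rfl, by simp⟩
  | cons x s ih =>
    obtain ⟨a, b, h1, h2⟩ := ih fun y hy => h y (Multiset.mem_cons_of_mem hy)
    rcases h x (Multiset.mem_cons_self x s) with rfl | rfl
    · exact ⟨a + 1, b, by rw [Multiset.card_cons]; omega, by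
        rw [Multiset.sum_cons, h2]; push_cast; ring⟩
    · exact ⟨a, b + 1, by rw [Multiset.card_cons]; omega, by
        rw [Multiset.sum_cons, h2]; push_cast; ring⟩

variable [FiniteDimensional ℂ V]

lemma trace_signs {f : End ℂ V} (h : Uni (f ^ 2)) : ∃ p : Fin (finrank ℂ V + 1) × Fin (finrank ℂ V + 1),
    LinearMap.trace ℂ V f = (p.1 : ℕ) - (p.2 : ℕ) := by
  obtain ⟨a, b, h1, h2⟩ := sum_signs f.charpoly.roots fun x hx => by
    obtain ⟨v, hv⟩ := ((End.hasEigenvalue_iff_isRoot_charpoly f x).2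
      (Polynomial.isRoot_of_mem_roots hx)).exists_hasEigenvector
    have e := hv.apply_eq_smul
    by_contra hc
    refine hv.2 ((h.on ⊤).eig (c := x ^ 2) trivial ?_ fun h1 => hc (mul_self_eq_one_iff.1 (by rwa [← sq])))
    rw [sq, End.mul_apply, e, map_smul, e, smul_smul, sq]
  have h3 := Polynomial.card_roots' f.charpoly
  rw [LinearMap.charpoly_natDegree] at h3
  exact ⟨(⟨a, by omega⟩, ⟨b, by omega⟩), by
    rw [End.trace_eq_sum_roots_charpoly_of_splits (IsAlgClosed.splits _), h2]⟩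

variable {G : Type} [Group G]

lemma span_top [Nontrivial V] (ρ : G →* End ℂ V)
    (irr : ∀ P : Submodule ℂ V, (∀ g, Keeps (ρ g) P) → P = ⊥ ∨ P = ⊤) :
    Submodule.span ℂ (Set.range ρ) = ⊤ := by
  let A : Subalgebra ℂ (End ℂ V) := Algebra.adjoin ℂ (Set.range ρ)
  have hs : IsSimpleModule A V := by
    refine { eq_bot_or_eq_top := fun U => ?_ }
    rcases irr (U.restrictScalars ℂ) (fun g u hu =>
      U.smul_mem (⟨ρ g, Algebra.subset_adjoin ⟨g, rfl⟩⟩ : A) hu) with hU | hU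
    · exact Or.inl ((Submodule.restrictScalars_eq_bot_iff _ _ _).1 hU)
    · exact Or.inr ((Submodule.restrictScalars_eq_top_iff _ _ _).1 hU)
  refine eq_top_iff.2 fun M _ => ?_
  obtain ⟨r, hr⟩ := burnside (A := A) M
  have h2 : M = r.1 := LinearMap.ext hr
  have h3 : r.1 ∈ Subalgebra.toSubmodule A := r.2
  rw [Algebra.adjoin_eq_span, ← MonoidHom.coe_mrange, Submonoid.closure_eq] at h3
  rw [h2]
  exact h3

lemma sq_one [Nontrivial V] (ρ : G →* End ℂ V)
    (irr : ∀ P : Submodule ℂ V, (∀ g, Keeps (ρ g) P) → P = ⊥ ∨ P = ⊤)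
    (h : ∀ g, Uni (ρ g ^ 2)) (g : G) : ρ g ^ 2 = 1 := by
  have hsp := span_top ρ irr
  obtain ⟨T, hT, hT'⟩ := (Submodule.fg_span_iff_fg_span_finset_subset (R := ℂ) (Set.range ρ)).1
    (by rw [hsp]; exact Module.Finite.fg_top)
  choose γ hγ using fun t : T => hT t.2
  choose p hp using fun x : G => trace_signs (h x)
  have key : ∀ k l : ℕ, (fun t : T => p (g ^ (2 * k) * γ t)) = (fun t : T => p (g ^ (2 * l) * γ t)) →
      (ρ g ^ 2) ^ k = (ρ g ^ 2) ^ l := by
    intro k l e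
    have h1 : ∀ x ∈ Submodule.span ℂ (T : Set (End ℂ V)),
        LinearMap.trace ℂ V (((ρ g ^ 2) ^ k - (ρ g ^ 2) ^ l) * x) = 0 := by
      intro x hx
      induction hx using Submodule.span_induction with
      | mem x hx =>
        have e1 := hp (g ^ (2 * k) * γ ⟨x, hx⟩)
        have e2 := hp (g ^ (2 * l) * γ ⟨x, hx⟩)
        rw [congrFun e ⟨x, hx⟩, ← e2, map_mul ρ, map_mul ρ, hγ, map_pow ρ, map_pow ρ, pow_mul,
          pow_mul] at e1
        rw [sub_mul, map_sub]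
        exact sub_eq_zero.2 e1
      | zero => simp
      | add x y _ _ hx hy => rw [mul_add, map_add, hx, hy, add_zero]
      | smul c x _ hx => rw [mul_smul_comm, map_smul, hx, smul_zero]
    refine sub_eq_zero.1 (LinearMap.ext fun v => (forall_dual_apply_eq_zero_iff ℂ _).1 fun φ => ?_)
    have h2 := h1 (φ.smulRight v) (by rw [← hT', hsp]; trivial)
    have h3 : ((ρ g ^ 2) ^ k - (ρ g ^ 2) ^ l) * φ.smulRight v =
        φ.smulRight (((ρ g ^ 2) ^ k - (ρ g ^ 2) ^ l) v) := by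
      ext w
      simp only [End.mul_apply, LinearMap.smulRight_apply, map_smul]
    rwa [h3, LinearMap.trace_smulRight] at h2
  have fin : ∀ k l : ℕ, k < l → (ρ g ^ 2) ^ k = (ρ g ^ 2) ^ l → ρ g ^ 2 = 1 := by
    intro k l hkl e
    obtain ⟨m, rfl⟩ := Nat.exists_eq_add_of_lt hkl
    have hu : IsUnit ((ρ g ^ 2) ^ k) := (((Group.isUnit g).map ρ).pow 2).pow k
    rw [add_assoc, pow_add] at e
    have e' : (ρ g ^ 2) ^ (m + 1) = 1 := (hu.mul_eq_left.1 e.symm)
    exact LinearMap.ext fun v => ((h g).on ⊤).eq_of_pow (fun _ _ => trivial) m.succ_pos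
      (fun w _ => by rw [e']; rfl) v trivial
  obtain ⟨k, l, hkl, e⟩ := Finite.exists_ne_map_eq_of_infinite
    fun (k : ℕ) (t : T) => p (g ^ (2 * k) * γ t)
  rcases lt_or_gt_of_ne hkl with h1 | h1
  · exact fin k l h1 (key k l e)
  · exact fin l k h1 (key l k e.symm)

lemma irr_sign [Nontrivial V] (ρ : G →* End ℂ V)
    (irr : ∀ P : Submodule ℂ V, (∀ g, Keeps (ρ g) P) → P = ⊥ ∨ P = ⊤)
    (h : ∀ g, Uni (ρ g ^ 2)) (g : G) (v : V) : ρ g v = v ∨ ρ g v = -v := by
  have h1 : ∀ x, ρ x * ρ x = 1 := fun x => by rw [← sq, sq_one ρ irr h]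
  have h2 : ∀ x, ρ x⁻¹ = ρ x := fun x => by
    rw [← mul_one (ρ x⁻¹), ← h1 x, ← mul_assoc, ← map_mul, inv_mul_cancel, map_one, one_mul]
  have h3 : ∀ x, Commute (ρ x) (ρ g) := fun x => by
    rw [Commute, SemiconjBy, ← map_mul, ← h2, mul_inv_rev, map_mul, h2, h2]
  rcases irr (End.eigenspace (ρ g) 1) (fun x => keeps_eig (h3 x) 1) with e | e
  · right
    have : ρ g v + v ∈ End.eigenspace (ρ g) 1 := by
      rw [End.mem_eigenspace_iff, one_smul, map_add, ← End.mul_apply, h1, add_comm]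
      rfl
    rw [e, Submodule.mem_bot] at this
    exact eq_neg_of_add_eq_zero_left this
  · left
    have : v ∈ End.eigenspace (ρ g) 1 := by rw [e]; trivial
    rwa [End.mem_eigenspace_iff, one_smul] at this

lemma exists_sign (ρ : G →* End ℂ V) (Q : Submodule ℂ V) (hQ : ∀ g, Keeps (ρ g) Q)
    (h : ∀ g, UniOn (ρ g ^ 2) Q) (h0 : Q ≠ ⊥) :
    ∃ v ∈ Q, v ≠ 0 ∧ ∀ g, ρ g v = v ∨ ρ g v = -v := by
  obtain ⟨P, ⟨hP, hle, hP0⟩, hmin⟩ := WellFounded.has_min (wellFounded_lt (α := Submodule ℂ V))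
    {P | (∀ g, Keeps (ρ g) P) ∧ P ≤ Q ∧ P ≠ ⊥} ⟨Q, hQ, le_rfl, h0⟩
  have : Nontrivial P := Submodule.nontrivial_iff_ne_bot.2 hP0
  let ρ' : G →* End ℂ P := Representation.subrepresentation ρ P hP
  have e : ∀ g (v : P), P.subtype (ρ' g v) = ρ g (P.subtype v) := fun _ _ => rfl
  obtain ⟨v, hv⟩ := exists_ne (0 : P)
  refine ⟨v, hle v.2, fun h1 => hv (Subtype.ext h1), fun g => ?_⟩
  refine (irr_sign ρ' (fun R hR => ?_) (fun x => ?_) g v).imp (congrArg Subtype.val)
    (congrArg Subtype.val)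
  · by_cases h1 : R = ⊥
    · exact Or.inl h1
    refine Or.inr (Submodule.map_injective_of_injective P.injective_subtype ?_)
    rw [Submodule.map_top, Submodule.range_subtype]
    by_contra h2
    refine hmin _ ⟨?_, (P.map_subtype_le R).trans hle, ?_⟩ (lt_of_le_of_ne (P.map_subtype_le R) h2)
    · rintro x _ ⟨w, hw, rfl⟩
      exact ⟨_, hR x w hw, e x w⟩
    · exact fun h3 => h1 (Submodule.map_injective_of_injective P.injective_subtype
        (h3.trans (Submodule.map_bot _).symm))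
  · refine uni_sub P.subtype P.injective_subtype (fun w => ?_) (fun w => hle w.2) (h x)
    rw [sq, sq, End.mul_apply, End.mul_apply, e, e]

end

lemma uni_all {G : Type} [Group G] (X : Set G) (hX : Subgroup.closure X = ⊤) (n : ℕ) :
    ∀ (V : Type) [AddCommGroup V] [Module ℂ V] [FiniteDimensional ℂ V] (ρ : G →* End ℂ V),
      finrank ℂ V = n → (∀ g, Uni (ρ g ^ 2)) → (∀ x ∈ X, Uni (ρ x)) → ∀ g, Uni (ρ g) := by
  induction n using Nat.strong_induction_on with
  | _ n ih =>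
  intro V _ _ _ ρ hn h hx g
  rcases subsingleton_or_nontrivial V with hV | hV
  · exact ⟨0, Subsingleton.elim _ _⟩
  obtain ⟨v, -, hv0, hv⟩ := exists_sign ρ ⊤ (fun _ _ _ => trivial) (fun g => (h g).on ⊤) top_ne_bot
  have hfix : ∀ y, ρ y v = v := fun y => by
    have hy : y ∈ Subgroup.closure X := by rw [hX]; trivial
    induction hy using Subgroup.closure_induction with
    | mem x hx' =>
      refine (hv x).resolve_right fun e => hv0 ?_
      exact ((hx x hx').on ⊤).eig (c := -1) trivial (by rw [e, neg_one_smul]) (by norm_num)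
    | one => rw [map_one]; rfl
    | mul a b _ _ ha hb => rw [map_mul, End.mul_apply, hb, ha]
    | inv a _ ha => rw [← ha, ← End.mul_apply, ← map_mul, inv_mul_cancel, map_one, ha]; rfl
  let L : Submodule ℂ V := Submodule.span ℂ {v}
  have hL : ∀ y, ∀ w ∈ L, ρ y w = w := fun y w hw => by
    obtain ⟨c, rfl⟩ := Submodule.mem_span_singleton.1 hw
    rw [map_smul, hfix]
  let ρ' : G →* End ℂ (V ⧸ L) := Representation.quotient ρ L fun y w hw => by
    rw [Submodule.mem_comap]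
    exact (hL y w hw).symm ▸ hw
  have e : ∀ y w, L.mkQ (ρ y w) = ρ' y (L.mkQ w) := fun _ _ => rfl
  have hlt : finrank ℂ (V ⧸ L) < n := by
    have h1 := L.finrank_quotient_add_finrank
    have h2 : finrank ℂ L = 1 := finrank_span_singleton hv0
    omega
  obtain ⟨k, hk⟩ := uni_iff.1 (ih _ hlt (V ⧸ L) ρ' rfl
    (fun y => uni_quo L.mkQ L.mkQ_surjective (fun w => by
      rw [sq, sq, End.mul_apply, End.mul_apply, e, e]) (h y))
    (fun x hx' => uni_quo L.mkQ L.mkQ_surjective (e x) (hx x hx')) g)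
  refine uni_iff.2 ⟨k + 1, fun w => ?_⟩
  have h1 := hk (L.mkQ w)
  rw [← semi L.mkQ (e g), Submodule.mkQ_apply, Submodule.Quotient.mk_eq_zero] at h1
  rw [pow_succ', End.mul_apply, LinearMap.sub_apply, hL g _ h1]
  exact sub_self _

theorem sburn : SBurn := by
  intro H _ _ _ G _ ρ Q hQ h
  refine ⟨exists_sign ρ Q hQ h, fun X hX hx g => ?_⟩
  let ρ' : G →* End ℂ Q := Representation.subrepresentation ρ Q hQ
  have e : ∀ g (v : Q), Q.subtype (ρ' g v) = ρ g (Q.subtype v) := fun _ _ => rfl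
  obtain ⟨k, hk⟩ := uni_iff.1 (uni_all X hX _ Q ρ' rfl
    (fun y => uni_sub Q.subtype Q.injective_subtype (fun w => by
      rw [sq, sq, End.mul_apply, End.mul_apply, e, e]) (fun w => w.2) (h y))
    (fun x hx' => uni_sub Q.subtype Q.injective_subtype (e x) (fun w => w.2) (hx x hx')) g)
  refine ⟨k, fun v hv => ?_⟩
  have h1 := semi Q.subtype (e g) k ⟨v, hv⟩
  rw [hk, map_zero] at h1
  exact h1.symm

lemma graded {G : Type} [Group G] (U : Subgroup G) (hU : U.Normal) (n : ℕ) :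
    ∀ (V : Type) [AddCommGroup V] [Module ℂ V] [FiniteDimensional ℂ V] (ρ : G →* End ℂ V),
      finrank ℂ V = n → (∀ u ∈ U, Uni (ρ u)) →
      ∃ (H' : Type) (_ : AddCommGroup H') (_ : Module ℂ H') (_ : FiniteDimensional ℂ H')
        (ρ' : G →* End ℂ H'), (∀ g, LinearMap.trace ℂ H' (ρ' g) = LinearMap.trace ℂ V (ρ g)) ∧
        (∀ u ∈ U, ρ' u = 1) ∧ ∀ g, Uni (ρ g) → Uni (ρ' g) := by
  induction n using Nat.strong_induction_on with
  | _ n ih =>
  intro V _ _ _ ρ hn h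
  rcases subsingleton_or_nontrivial V with hV | hV
  · exact ⟨V, _, _, inferInstance, ρ, fun _ => rfl, fun _ _ => Subsingleton.elim _ _, fun _ h => h⟩
  obtain ⟨v, -, hv0, hv⟩ := exists_sign (ρ.comp U.subtype) ⊤ (fun _ _ _ => trivial)
    (fun u => by
      rw [← map_pow]
      exact (h _ (u ^ 2).2).on ⊤) top_ne_bot
  let F : Submodule ℂ V := ⨅ u : U, End.eigenspace (ρ u) 1
  have hF : ∀ w, w ∈ F ↔ ∀ u ∈ U, ρ u w = w := fun w => by
    simp only [F, Submodule.mem_iInf, End.mem_eigenspace_iff, one_smul, Subtype.forall]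
  have hvF : v ∈ F := (hF v).2 fun u hu => by
    refine (hv ⟨u, hu⟩).resolve_right fun e => hv0 ?_
    exact ((h u hu).on ⊤).eig (c := -1) trivial (by rw [neg_one_smul]; exact e) (by norm_num)
  have hk : ∀ g, F ≤ F.comap (ρ g) := fun g w hw => (hF _).2 fun u hu => by
    have h1 := (hF w).1 hw _ (hU.conj_mem' u hu g)
    conv_rhs => rw [← h1]
    rw [← End.mul_apply, ← End.mul_apply, ← map_mul, ← map_mul, ← mul_assoc, ← mul_assoc,
      mul_inv_cancel, one_mul]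
  let ρ₁ : G →* End ℂ F := Representation.subrepresentation ρ F hk
  let ρ₂ : G →* End ℂ (V ⧸ F) := Representation.quotient ρ F hk
  have e₁ : ∀ g (w : F), F.subtype (ρ₁ g w) = ρ g (F.subtype w) := fun _ _ => rfl
  have e₂ : ∀ g w, F.mkQ (ρ g w) = ρ₂ g (F.mkQ w) := fun _ _ => rfl
  have hlt : finrank ℂ (V ⧸ F) < n := by
    have h1 := F.finrank_quotient_add_finrank
    have h2 : finrank ℂ F ≠ 0 := fun h3 => hv0 (by
      rw [Submodule.finrank_eq_zero.1 h3] at hvF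
      exact hvF)
    omega
  obtain ⟨H', _, _, _, ρ', t1, t2, t3⟩ := ih _ hlt (V ⧸ F) ρ₂ rfl
    fun u hu => uni_quo F.mkQ F.mkQ_surjective (e₂ u) (h u hu)
  let ρ₃ : G →* End ℂ (F × H') := Representation.prod ρ₁ ρ'
  have e₃ : ∀ g, ρ₃ g = (ρ₁ g).prodMap (ρ' g) := fun _ => rfl
  refine ⟨F × H', _, _, inferInstance, ρ₃, fun g => ?_, fun u hu => ?_, fun g hg => ?_⟩
  · rw [e₃, LinearMap.trace_prodMap', t1]
    exact (H81.GrAux.tr_add F.subtype F.mkQ (ρ₁ g) (ρ g) (ρ₂ g) F.injective_subtype F.mkQ_surjective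
      (fun a => by simp) (LinearMap.ext (e₁ g)) (LinearMap.ext (e₂ g))).symm
  · rw [e₃, t2 u hu]
    have : ρ₁ u = 1 := LinearMap.ext fun w => Subtype.ext ((hF w).1 w.2 u hu)
    rw [this]
    rfl
  · obtain ⟨k, h1⟩ := uni_iff.1
      (uni_sub F.subtype F.injective_subtype (e₁ g) (Q := ⊤) (fun _ => trivial) (hg.on ⊤))
    obtain ⟨l, h2⟩ := uni_iff.1 (t3 g (uni_quo F.mkQ F.mkQ_surjective (e₂ g) hg))
    refine uni_iff.2 ⟨k + l, fun w => Prod.ext ?_ ?_⟩
    · refine (semi (LinearMap.fst ℂ F H') (f := ρ₁ g) (fun _ => rfl) (k + l) w).trans ?_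
      rw [pow_add, End.mul_apply, h1]
      rfl
    · refine (semi (LinearMap.snd ℂ F H') (f := ρ' g) (fun _ => rfl) (k + l) w).trans ?_
      rw [pow_add, End.mul_apply, h2, map_zero]
      rfl

theorem sgr' (_ : SBurn) : SGR := by
  intro H _ _ _ G _ ρ Q U hQ hU h
  let ρ' : G →* End ℂ Q := Representation.subrepresentation ρ Q hQ
  have e : ∀ g (v : Q), Q.subtype (ρ' g v) = ρ g (Q.subtype v) := fun _ _ => rfl
  obtain ⟨H', _, _, _, ρ'', t1, t2, t3⟩ := graded U hU _ Q ρ' rfl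
    fun u hu => uni_sub Q.subtype Q.injective_subtype (e u) (fun w => w.2) (h u hu)
  exact ⟨H', _, _, inferInstance, ρ'', fun g => (t1 g).trans (trOn_eq (hQ g)).symm, t2,
    fun g hg => t3 g (uni_sub Q.subtype Q.injective_subtype (e g) (fun w => w.2) hg)⟩

end Pool.Agent.MP_3ce0a0_al.H59
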