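import Pool.Agent.MP_3ce0a0_al.H79.Y3B

/-
Identities in the outer automorphism group of the free group of rank three.
-/

namespace Pool.Agent.MP_3ce0a0_al.H79.Y

open FreeGroup hiding map_mul map_one
open Equiv Pointwise Pool.Agent.MP_3ce0a0_al.H79.X Pool.Agent.MP_3ce0a0_al.H62.Inst

namespace H59

lemma vv_of {a b c : Fin 3} (h : D3 a b c) :
    vv (N0 (Fin 3)) a b c (of a) = of b * (of c)⁻¹ ∧
    vv (N0 (Fin 3)) a b c (of b) = of a * (of c)⁻¹ ∧
    vv (N0 (Fin 3)) a b c (of c) = (of c)⁻¹ := by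
  obtain ⟨h1, h2, h3⟩ := h
  refine ⟨?_, ?_, ?_⟩ <;>
    simp [vv, N0, ep_of, rh_of h2.symm, rh_of h3.symm, h1, h1.symm, h2, h2.symm, h3, h3.symm,
      swap_apply_of_ne_of_ne]

lemma DD_of (x : Fin 3) : DD (N0 (Fin 3)).toWS (of x) = (of x)⁻¹ := by
  fin_cases x <;> simp [DD, N0, ep_of]

lemma tp_of (a b x : Fin 3) : tp (N0 (Fin 3)).toWS a b (of x) = (of (swap a b x))⁻¹ := by
  rw [tp, MulAut.mul_apply, DD_of]
  simp [N0]

lemma kk {a b c : Fin 3} (h : D3 a b c) :
    KK (N0 (Fin 3)) a b * KK (N0 (Fin 3)) c b = MulAut.conj (of b)⁻¹ := by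
  have hc := h.cover
  obtain ⟨h1, h2, h3⟩ := h
  refine aut_ext fun x => ?_
  rcases hc x with rfl | rfl | rfl <;>
    simp [KK, N0, rh_of h1, rh_of h3, la_inv h1, la_inv h3, h1.symm, h2, h2.symm, h3.symm,
      mul_assoc]

lemma comm {a b c : Fin 3} (h : D3 a b c) :
    Commute (rh a b * la a b) (ep a * ep b) ∧ Commute (rh b a * la b a) (ep a * ep b) ∧
    Commute (la c a * rh c b) (tp (N0 (Fin 3)).toWS a b) ∧
    Commute (rh a c * la b c) (tp (N0 (Fin 3)).toWS a b) := by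
  have hc := h.cover
  obtain ⟨h1, h2, h3⟩ := h
  refine ⟨aut_ext fun x => ?_, aut_ext fun x => ?_, aut_ext fun x => ?_, aut_ext fun x => ?_⟩ <;>
    rcases hc x with rfl | rfl | rfl <;>
    simp [tp_of, ep_of, rh_of h1, rh_of h1.symm, la_of h1, la_of h1.symm, la_of h2, rh_of h3,
      rh_of h2.symm, la_of h3.symm, h1, h1.symm, h2, h2.symm, h3, h3.symm, mul_assoc,
      swap_apply_of_ne_of_ne]

lemma not_inn {g : A (Fin 3)} {x : Fin 3} (h : g (of x) = (of x)⁻¹) :
    g ∉ Inn (FreeGroup (Fin 3)) := by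
  rintro ⟨u, hu⟩
  have := congrArg (lift fun _ => Multiplicative.ofAdd (1 : ℤ)) (DFunLike.congr_fun hu (of x))
  rw [h] at this
  simp at this
  exact absurd (congrArg Multiplicative.toAdd this) (by simp)

end H59

open H59 in
theorem swd : SWd := by
  intro O _ ψ hψ N hN
  subst hN
  have hk : ∀ g, ψ g = 1 ↔ g ∈ Inn (FreeGroup (Fin 3)) := fun g => by rw [← hψ]; rfl
  have hc : ∀ u, ψ (MulAut.conj u) = 1 := fun u => (hk _).2 ⟨u, rfl⟩
  have hvv : ∀ a b c, vv ((N0 (Fin 3)).map ψ) a b c = ψ (vv (N0 (Fin 3)) a b c) := fun a b c => by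
    simp [vv, NS.map, WS.map]
  have htp : ∀ a b, tp ((N0 (Fin 3)).map ψ).toWS a b = ψ (tp (N0 (Fin 3)).toWS a b) :=
    fun a b => by simp [tp, DD, NS.map, WS.map]
  refine ⟨fun a b c h => ?_, fun e => ?_, ?_, fun a b c h => ?_, ?_⟩
  · rw [← hc (of b)⁻¹, ← kk h]
    simp [KK, NS.map]
  · refine not_inn (g := ep 0 * ep 1) (x := 0) (by simp [ep_of]) ((hk _).1 ?_)
    rw [map_mul]
    exact e
  · refine ⟨(ψ.comp (MulAction.stabilizer (MulAut (FreeGroup (Fin 3))) (Let (Fin 3))).subtype).range,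
      Finite.of_surjective _ (MonoidHom.rangeRestrict_surjective _), fun a => ⟨(w0 (Fin 3)).ε a, rfl⟩,
      fun p => ⟨(w0 (Fin 3)).π p, rfl⟩⟩
  · obtain ⟨h1, h2, h3, h4⟩ := comm h
    rw [htp]
    refine ⟨?_, ?_, ?_, ?_⟩
    · have := h1.map ψ
      simp only [map_mul] at this
      exact this
    · have := h2.map ψ
      simp only [map_mul] at this
      exact this
    · have := h3.map ψ
      simp only [map_mul] at this
      exact this
    · have := h4.map ψ
      simp only [map_mul] at this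
      exact this
  · rintro _ _ _ rfl rfl rfl
    rw [hvv, hvv, htp]
    obtain ⟨v1, v2, v0⟩ := vv_of (a := 1) (b := 2) (c := 0) (by unfold D3; decide)
    obtain ⟨w0', w2, w1⟩ := vv_of (a := 0) (b := 2) (c := 1) (by unfold D3; decide)
    have t0 : tp (N0 (Fin 3)).toWS 0 1 (of 0) = (of 1)⁻¹ := by rw [tp_of]; rfl
    have t1 : tp (N0 (Fin 3)).toWS 0 1 (of 1) = (of 0)⁻¹ := by rw [tp_of]; rfl
    have t2 : tp (N0 (Fin 3)).toWS 0 1 (of 2) = (of 2)⁻¹ := by rw [tp_of]; rfl
    generalize vv (N0 (Fin 3)) 1 2 0 = v at *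
    generalize vv (N0 (Fin 3)) 0 2 1 = w at *
    generalize tp (N0 (Fin 3)).toWS 0 1 = t at *
    have e1 : v * v = 1 := aut_ext fun x => by fin_cases x <;> simp [*]
    have e2 : w * w = 1 := aut_ext fun x => by fin_cases x <;> simp [*]
    have e3 : t * t = 1 := aut_ext fun x => by fin_cases x <;> simp [*]
    have e4 : v * w = w * v := aut_ext fun x => by fin_cases x <;> simp [v0, v1, v2, w0', w1, w2]
    have e5 : MulAut.conj (of 1) * (t * v) = w * t := aut_ext fun x => by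
      fin_cases x <;> simp [v0, v1, v2, w0', w1, w2, t0, t1, t2, mul_assoc]
    let p : Perm (Fin 3) := swap 0 1 * swap 0 2
    have p0 : p 0 = 2 := rfl
    have p1 : p 1 = 0 := rfl
    have p2 : p 2 = 1 := rfl
    have e6 : pm p * v = v * w * pm p := aut_ext fun x => by
      fin_cases x <;> simp [v0, v1, v2, w0', w1, w2, p0, p1, p2]
    have e7 : pm p * w = v * pm p := aut_ext fun x => by
      fin_cases x <;> simp [v0, v1, v2, w0', w1, w2, p0, p1, p2]
    have e8 : (rh 1 2)⁻¹ * ep 0 * t = v * w * ((rh 1 2)⁻¹ * ep 0) := aut_ext fun x => by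
      fin_cases x <;> simp [v0, v1, v2, w0', w1, w2, t0, t1, t2, ep_of,
        rh_inv (show (1 : Fin 3) ≠ 2 by decide)]
    refine ⟨by rw [← map_mul, e1, map_one], by rw [← map_mul, e2, map_one],
      by rw [← map_mul, e3, map_one], by rw [← map_mul, e4, map_mul], ?_,
      ⟨ψ (pm p), by simpa only [map_mul] using congrArg ψ e6,
        by simpa only [map_mul] using congrArg ψ e7⟩, ?_, fun e => ?_⟩
    · simpa only [map_mul, hc, one_mul] using congrArg ψ e5
    · refine isConj_iff.2 ⟨ψ ((rh 1 2)⁻¹ * ep 0), ?_⟩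
      rw [← map_mul, e8, map_mul, mul_inv_cancel_right, map_mul]
    · refine not_inn (g := v * w) (x := 2) (by simp [v0, v1, w2]) ((hk _).1 ?_)
      rw [map_mul]
      exact e

end Pool.Agent.MP_3ce0a0_al.H79.Y
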